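import Mathlib

/-!
Definitions for branching random walks (BRWs) on a set `X`.

An offspring configuration is a finitely supported function `f : X →₀ ℕ` (the set `S_X`).
A BRW is a family `μ : X → PMF (X →₀ ℕ)` of probability distributions on `S_X`.
-/

namespace Pool.Agent.MP_2fa7ec_pr

/-- The generating function `G(z)(x) = ∑_f μ_x(f) ∏_y z(y)^{f(y)}`. -/
noncomputable def genFun {X : Type*} (μ : X → PMF (X →₀ ℕ)) (z : X → ℝ) (x : X) : ℝ :=
  ∑' f : X →₀ ℕ, (μ x f).toReal * f.prod (fun y n => z y ^ n)

/-- The set `F_G` of fixed points of the generating function in `[0,1]^X`. -/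
def fixedSet {X : Type*} (μ : X → PMF (X →₀ ℕ)) : Set (X → ℝ) :=
  {z | (∀ x, z x ∈ Set.Icc (0 : ℝ) 1) ∧ genFun μ z = z}

/-- A particle at `x` places at least one child at `y` with positive probability. -/
def Edge {X : Type*} (μ : X → PMF (X →₀ ℕ)) (x y : X) : Prop :=
  ∃ f : X →₀ ℕ, μ x f ≠ 0 ∧ f y ≠ 0

/-- Irreducibility: every `y` is reached from every `x` along a finite chain of edges, that is,
the progeny of a particle at `x` reaches `y` with positive probability. -/
def IsIrreducibleBRW {X : Type*} (μ : X → PMF (X →₀ ℕ)) : Prop :=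
  ∀ x y : X, Relation.ReflTransGen (Edge μ) x y

end Pool.Agent.MP_2fa7ec_pr
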